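import Pool.Agent.H24.SCG2.Base2
import Pool.Agent.H24.SCG.BCJ

/-!
Project SCG2, rows BCZ and RVZ: base change and reversal for `StrZ`.
-/

namespace Pool.SCG

theorem cj_zs {F : Type*} [Field F] (P : SL3 F) {z : Cor F} (hz : z ∈ Zs F) : cj P z = z := by
  have h : z * inn P = inn P * z := zs_comm hz (inn_s P)
  simp only [cj]
  rw [mul_assoc, h, inv_mul_cancel_left]

theorem cj_image_zs {F : Type*} [Field F] (P : SL3 F) : cj P '' Zs F = Zs F := by
  ext y
  constructor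
  · rintro ⟨z, hz, rfl⟩
    rw [cj_zs P hz]
    exact hz
  · intro hy
    exact ⟨y, hy, cj_zs P hy⟩

theorem bcz_thm : BCZStmt := by
  intro F _ P a b c d e h
  have hinj := cj_injective P
  have hs : ∀ x : Cor F, (cj P x).s = x.s := by
    intro x
    simp [cj]
  have one : ∀ x : Cor F, x ≠ 1 ∧ x * x = 1 → cj P x ≠ 1 ∧ cj P x * cj P x = 1 := by
    rintro x ⟨h1, h2⟩
    refine ⟨fun h3 => h1 (hinj (h3.trans (cj_one P).symm)), ?_⟩
    rw [← cj_mul, h2, cj_one]
  have com : ∀ x y : Cor F, x * y = y * x → cj P x * cj P y = cj P y * cj P x := by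
    intro x y h3
    rw [← cj_mul, h3, cj_mul]
  have ncom : ∀ x y : Cor F, (∀ z ∈ Zs F, x * y ≠ z * (y * x)) →
      ∀ z ∈ Zs F, cj P x * cj P y ≠ z * (cj P y * cj P x) := by
    intro x y h3 z hz h4
    apply h3 z hz
    apply hinj
    rw [cj_mul, cj_mul, cj_mul, h4, cj_zs P hz]
  have im2 : ∀ x y : Cor F, ({cj P x, cj P y} ∪ Zs F : Set (Cor F)) =
      cj P '' ({x, y} ∪ Zs F) := by
    intro x y; rw [Set.image_union, cj_image_zs, Set.image_pair]
  have im3 : ∀ x y z : Cor F, ({cj P x, cj P y, cj P z} ∪ Zs F : Set (Cor F)) =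
      cj P '' ({x, y, z} ∪ Zs F) := by
    intro x y z; rw [Set.image_union, cj_image_zs, Set.image_insert_eq, Set.image_pair]
  have im4 : ∀ x y z w : Cor F, ({cj P x, cj P y, cj P z, cj P w} ∪ Zs F : Set (Cor F))
      = cj P '' ({x, y, z, w} ∪ Zs F) := by
    intro x y z w
    rw [Set.image_union, cj_image_zs, Set.image_insert_eq, Set.image_insert_eq, Set.image_pair]
  refine ⟨one a h.ia, one b h.ib, one c h.ic, one d h.id, one e h.ie, com _ _ h.ac, com _ _ h.ad,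
    com _ _ h.ae, ?_, ?_, com _ _ h.be, com _ _ h.ce, ncom _ _ h.ab, ncom _ _ h.bc,
    ncom _ _ h.cd, ncom _ _ h.de, ?_, ?_, ?_, ?_⟩
  · obtain ⟨z, hz, h1⟩ := h.bd
    refine ⟨z, hz, ?_⟩
    rw [← cj_mul, h1, cj_mul, cj_mul, cj_zs P hz]
  · rw [hs, hs, hs, hs]
    intro h1
    exact com _ _ (h.bdx h1)
  · rw [im4, mem_closure_cj]; exact h.v1
  · rw [im4, mem_closure_cj]; exact h.v2
  · intro x hx hx'
    obtain ⟨z, rfl⟩ := cj_surjective P x
    rw [im2, mem_closure_cj] at hx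
    rw [im3, mem_closure_cj] at hx'
    have := h.v3 z hx hx'
    rw [cj_zs P this]
    exact this
  · intro x hx hx'
    obtain ⟨z, rfl⟩ := cj_surjective P x
    rw [im2, mem_closure_cj] at hx
    rw [im3, mem_closure_cj] at hx'
    have := h.v4 z hx hx'
    rw [cj_zs P this]
    exact this

theorem rvz_thm : RVZStmt := by
  intro F _ a b c d e h
  have s2 : ∀ x y : Cor F, ({x, y} : Set (Cor F)) = {y, x} := by
    intro x y; ext z; simp only [Set.mem_insert_iff, Set.mem_singleton_iff]; tauto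
  have s3 : ∀ x y z : Cor F, ({x, y, z} : Set (Cor F)) = {z, y, x} := by
    intro x y w; ext z; simp only [Set.mem_insert_iff, Set.mem_singleton_iff]; tauto
  have s4 : ∀ x y z w : Cor F, ({x, y, z, w} : Set (Cor F)) = {w, z, y, x} := by
    intro x y w v; ext z; simp only [Set.mem_insert_iff, Set.mem_singleton_iff]; tauto
  have ncom : ∀ x y : Cor F, (∀ z ∈ Zs F, x * y ≠ z * (y * x)) →
      ∀ z ∈ Zs F, y * x ≠ z * (x * y) := by
    intro x y h1 z hz h2
    apply h1 z⁻¹ (zs_inv hz)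
    rw [h2, inv_mul_cancel_left]
  refine ⟨h.ie, h.id, h.ic, h.ib, h.ia, h.ce.symm, h.be.symm, h.ae.symm, ?_, ?_, h.ad.symm,
    h.ac.symm, ncom _ _ h.de, ncom _ _ h.cd, ncom _ _ h.bc, ncom _ _ h.ab, ?_, ?_, ?_, ?_⟩
  · obtain ⟨z, hz, h1⟩ := h.bd
    refine ⟨z⁻¹, zs_inv hz, ?_⟩
    rw [h1, inv_mul_cancel_left]
  · intro h1
    have h2 : a.s = false ∨ b.s = false ∨ d.s = false ∨ e.s = false := by tauto
    exact (h.bdx h2).symm
  · rw [s4]; exact h.v2
  · rw [s4]; exact h.v1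
  · intro x hx hx'
    rw [s2] at hx
    rw [s3] at hx'
    exact h.v4 x hx hx'
  · intro x hx hx'
    rw [s2] at hx
    rw [s3] at hx'
    exact h.v3 x hx hx'

end Pool.SCG

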